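import Pool.Agent.Helper94.Riesz.CubeB

/-!
# Riesz energy in the cube: the limit
-/

set_option autoImplicit false
open MeasureTheory Set Filter Topology
open scoped ENNReal NNReal

namespace Helper23.Riesz

/-- a quasi monotone sequence converges -/
lemma exists_limit_of_quasi {c : ℕ → ℝ} (h0 : ∀ n, 0 ≤ c n)
    (h : ∀ δ : ℝ, 0 < δ → ∃ n₀ : ℕ, ∀ n, n₀ ≤ n → ∀ᶠ N : ℕ in atTop, c N ≤ (1 + δ) * c n + δ) :
    ∃ C : ℝ, 0 ≤ C ∧ Tendsto c atTop (𝓝 C) := by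
  -- bounded above eventually
  obtain ⟨n₁, hn₁⟩ := h 1 one_pos
  have hB := hn₁ n₁ le_rfl
  set B : ℝ := (1 + 1) * c n₁ + 1 with hBdef
  set L : ℝ := liminf c atTop with hL
  have hbb : IsBoundedUnder (· ≥ ·) atTop c := ⟨0, by
    rw [eventually_map]; exact Eventually.of_forall h0⟩
  have hba : IsBoundedUnder (· ≤ ·) atTop c := ⟨B, by rw [eventually_map]; exact hB⟩
  have hL0 : 0 ≤ L := le_liminf_of_le hba.isCoboundedUnder_ge (Eventually.of_forall h0)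
  refine ⟨L, hL0, ?_⟩
  rw [Metric.tendsto_nhds]
  intro ε hε
  -- lower bound
  have hlow : ∀ᶠ N : ℕ in atTop, L - ε < c N :=
    eventually_lt_of_lt_liminf (by linarith) hbb
  -- upper bound
  obtain ⟨δ, hδ0, hδ⟩ : ∃ δ : ℝ, 0 < δ ∧ (1 + δ) * (L + δ) + δ < L + ε := by
    refine ⟨min 1 (ε / (2 * (L + 4))), by positivity, ?_⟩
    set δ := min 1 (ε / (2 * (L + 4))) with hδdef
    have h1 : δ ≤ 1 := min_le_left _ _
    have h2 : δ ≤ ε / (2 * (L + 4)) := min_le_right _ _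
    have h3 : 0 < δ := by positivity
    have h4 : δ * (2 * (L + 4)) ≤ ε := by rwa [le_div_iff₀ (by positivity)] at h2
    nlinarith
  obtain ⟨n₀, hn₀⟩ := h δ hδ0
  have hfreq : ∃ᶠ n : ℕ in atTop, c n < L + δ :=
    frequently_lt_of_liminf_lt hba.isCoboundedUnder_ge (by linarith)
  obtain ⟨n, hcn, hn⟩ := (hfreq.and_eventually (eventually_ge_atTop n₀)).exists
  have hup := hn₀ n hn
  filter_upwards [hlow, hup] with N h5 h6
  rw [Real.dist_eq, abs_lt]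
  constructor
  · linarith
  · have h7 : (1 + δ) * c n ≤ (1 + δ) * (L + δ) := mul_le_mul_of_nonneg_left hcn.le (by linarith)
    linarith

theorem cube_limit {d : ℕ} (hd : 1 ≤ d) {s : ℝ} (hs : (d:ℝ) < s) : ∃ C : ℝ, 0 ≤ C ∧
    Tendsto (fun N : ℕ => Ecube s d N / (N : ℝ) ^ (1 + s / d)) atTop (𝓝 C) := by
  have hd0 : (0:ℝ) < d := by exact_mod_cast hd
  have hs0 : 0 < s := lt_trans hd0 hs
  have hp : 0 < 1 + s / d := by positivity
  refine exists_limit_of_quasi (fun n => div_nonneg (Ecube_nonneg s d n) (Real.rpow_nonneg (Nat.cast_nonneg _) _)) ?_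
  intro δ₀ hδ₀
  -- small parameter
  obtain ⟨δ, hδ0, hδ1, hδ2⟩ : ∃ δ : ℝ, 0 < δ ∧ (1 + δ) * (1 + δ) ≤ 1 + δ₀ ∧ (1 + δ) * δ ≤ δ₀ := by
    refine ⟨min δ₀ 1 / 3, by positivity, ?_, ?_⟩
    · have h1 : min δ₀ 1 ≤ δ₀ := min_le_left _ _
      have h2 : min δ₀ 1 ≤ 1 := min_le_right _ _
      have h3 : 0 < min δ₀ 1 := by positivity
      nlinarith
    · have h1 : min δ₀ 1 ≤ δ₀ := min_le_left _ _
      have h2 : min δ₀ 1 ≤ 1 := min_le_right _ _
      have h3 : 0 < min δ₀ 1 := by positivity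
      nlinarith
  -- choose g
  obtain ⟨g, hg0, hg1, hg⟩ : ∃ g : ℝ, 0 < g ∧ g < 1 ∧ (1 - g) ^ (-s) ≤ 1 + δ := by
    have hcont : Tendsto (fun g : ℝ => (1 - g) ^ (-s)) (𝓝[>] 0) (𝓝 1) := by
      have h1 : ContinuousAt (fun g : ℝ => (1 - g) ^ (-s)) 0 := by
        refine ContinuousAt.rpow_const (by fun_prop) (Or.inl (by norm_num))
      have h2 : Tendsto (fun g : ℝ => (1 - g) ^ (-s)) (𝓝 0) (𝓝 1) := by
        have := h1.tendsto
        simpa using this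
      exact h2.mono_left nhdsWithin_le_nhds
    have h1 : ∀ᶠ g : ℝ in 𝓝[>] 0, (1 - g) ^ (-s) < 1 + δ :=
      hcont.eventually (gt_mem_nhds (by linarith))
    have h2 : ∀ᶠ g : ℝ in 𝓝[>] 0, g ∈ Ioo (0:ℝ) 1 := Ioo_mem_nhdsGT one_pos
    obtain ⟨g, h3, h4⟩ := (h1.and h2).exists
    exact ⟨g, h4.1, h4.2, h3.le⟩
  obtain ⟨Cg, hCg0, hCg⟩ := Ecube_subdiv hd hs hg0 hg1
  -- choose n₀
  have hsd1 : 0 < s / d - 1 := by
    rw [sub_pos, one_lt_div hd0]; exact hs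
  have hdecay : Tendsto (fun n : ℕ => Cg * (n : ℝ) ^ (-(s / d - 1))) atTop (𝓝 0) := by
    have h1 := (tendsto_rpow_neg_atTop hsd1).comp tendsto_natCast_atTop_atTop
    have h2 := h1.const_mul Cg
    simpa using h2
  have hev : ∀ᶠ n : ℕ in atTop, Cg * (n : ℝ) ^ (-(s / d - 1)) < δ :=
    hdecay.eventually (gt_mem_nhds hδ0)
  obtain ⟨n₀, hn₀⟩ := eventually_atTop.1 (hev.and (eventually_ge_atTop 1))
  refine ⟨n₀, fun n hn => ?_⟩
  obtain ⟨hn1, hn2⟩ := hn₀ n hn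
  have hnpos : (0:ℝ) < n := by exact_mod_cast hn2
  -- the ratio
  have hratio : Tendsto (fun N : ℕ => ((1 + ((n : ℝ) / N) ^ (1 / (d:ℝ))) ^ d) ^ (1 + s / d)) atTop (𝓝 1) := by
    have h1 : Tendsto (fun N : ℕ => (n : ℝ) / N) atTop (𝓝 0) := tendsto_const_div_atTop_nhds_zero_nat _
    have h2 : Tendsto (fun N : ℕ => ((n : ℝ) / N) ^ (1 / (d:ℝ))) atTop (𝓝 0) := by
      have h3 := h1.rpow_const (p := 1 / (d:ℝ)) (Or.inr (by positivity))
      rwa [Real.zero_rpow (by positivity)] at h3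
    have h4 : Tendsto (fun N : ℕ => (1 + ((n : ℝ) / N) ^ (1 / (d:ℝ))) ^ d) atTop (𝓝 1) := by
      have h5 := (h2.const_add 1).pow d
      simpa using h5
    have h6 := h4.rpow_const (p := 1 + s / d) (Or.inl one_ne_zero)
    simpa using h6
  have hev2 : ∀ᶠ N : ℕ in atTop, ((1 + ((n : ℝ) / N) ^ (1 / (d:ℝ))) ^ d) ^ (1 + s / d) < 1 + δ :=
    hratio.eventually (gt_mem_nhds (by linarith))
  filter_upwards [hev2, eventually_ge_atTop 1] with N hN hN1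
  have hNpos : (0:ℝ) < N := by exact_mod_cast hN1
  -- choose m
  set x : ℝ := ((N : ℝ) / n) ^ (1 / (d:ℝ)) with hx
  have hx0 : 0 < x := by rw [hx]; positivity
  set m : ℕ := ⌈x⌉₊ with hm
  have hm1 : 0 < m := Nat.ceil_pos.2 hx0
  have hmx : x ≤ m := Nat.le_ceil x
  have hmx' : (m : ℝ) < x + 1 := Nat.ceil_lt_add_one hx0.le
  have hxd : x ^ d = (N : ℝ) / n := by
    rw [hx, ← Real.rpow_natCast, ← Real.rpow_mul (by positivity)]
    rw [one_div, inv_mul_cancel₀ hd0.ne', Real.rpow_one]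
  have hm0 : (0:ℝ) < m := by exact_mod_cast hm1
  -- N ≤ m^d n
  have hNm : N ≤ m ^ d * n := by
    have h1 : (N : ℝ) / n ≤ (m : ℝ) ^ d := by
      rw [← hxd]; exact pow_le_pow_left₀ hx0.le hmx d
    rw [div_le_iff₀ hnpos] at h1
    exact_mod_cast h1
  have hE1 : Ecube s d N ≤ Ecube s d (m ^ d * n) := Ecube_mono hd hs0.ne' hNm
  have hE2 := hCg m n hm1
  -- m^d n ≤ N (1 + (n/N)^{1/d})^d
  have hmd : (m : ℝ) ^ d * n ≤ N * (1 + ((n : ℝ) / N) ^ (1 / (d:ℝ))) ^ d := by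
    have h1 : (m : ℝ) ^ d ≤ (x + 1) ^ d := pow_le_pow_left₀ hm0.le hmx'.le d
    have h2 : ((n : ℝ) / N) ^ (1 / (d:ℝ)) = x⁻¹ := by
      rw [hx, ← Real.inv_rpow (by positivity), inv_div]
    have h3 : (x + 1) ^ d = x ^ d * (1 + x⁻¹) ^ d := by
      rw [← mul_pow]
      congr 1
      field_simp
    rw [h2]
    calc (m : ℝ) ^ d * n ≤ (x + 1) ^ d * n := mul_le_mul_of_nonneg_right h1 hnpos.le
      _ = (x ^ d * n) * (1 + x⁻¹) ^ d := by rw [h3]; ring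
      _ = N * (1 + x⁻¹) ^ d := by rw [hxd, div_mul_cancel₀ _ hnpos.ne']
  -- m^{d+s} n^{1+s/d} = (m^d n)^{1+s/d}
  have hpow : (m : ℝ) ^ ((d:ℝ) + s) = ((m : ℝ) ^ d) ^ (1 + s / d) := by
    rw [← Real.rpow_natCast, ← Real.rpow_mul hm0.le]
    congr 1
    field_simp
  set c : ℝ := Ecube s d n / (n : ℝ) ^ (1 + s / d) with hc
  have hnp : (0:ℝ) < (n : ℝ) ^ (1 + s / d) := by positivity
  have hcE : Ecube s d n = c * (n : ℝ) ^ (1 + s / d) := by rw [hc, div_mul_cancel₀ _ hnp.ne']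
  have hc0 : 0 ≤ c := div_nonneg (Ecube_nonneg s d n) hnp.le
  have hn2' : (n : ℝ) ^ 2 = (n : ℝ) ^ (-(s / d - 1)) * (n : ℝ) ^ (1 + s / d) := by
    rw [← Real.rpow_add hnpos, ← Real.rpow_natCast]
    congr 1
    push_cast
    ring
  have h8 : (m : ℝ) ^ ((d:ℝ) + s) * ((1 - g) ^ (-s) * Ecube s d n + Cg * (n : ℝ) ^ 2)
      = ((m : ℝ) ^ d * n) ^ (1 + s / d) * ((1 - g) ^ (-s) * c + Cg * (n : ℝ) ^ (-(s / d - 1))) := by
    rw [hcE, hn2', hpow, Real.mul_rpow (by positivity) hnpos.le]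
    ring
  have h9 : ((m : ℝ) ^ d * n) ^ (1 + s / d) ≤ (N : ℝ) ^ (1 + s / d) * (1 + δ) := by
    have h10 := Real.rpow_le_rpow (by positivity) hmd hp.le
    rw [Real.mul_rpow hNpos.le (by positivity)] at h10
    exact h10.trans (mul_le_mul_of_nonneg_left hN.le (by positivity))
  have h11 : (1 - g) ^ (-s) * c + Cg * (n : ℝ) ^ (-(s / d - 1)) ≤ (1 + δ) * c + δ := by
    have := mul_le_mul_of_nonneg_right hg hc0
    linarith
  have h12 : 0 ≤ (1 + δ) * c + δ := by positivity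
  have h13 : Ecube s d N ≤ (N : ℝ) ^ (1 + s / d) * ((1 + δ) * ((1 + δ) * c + δ)) := by
    calc Ecube s d N ≤ _ := hE1
      _ ≤ _ := hE2
      _ = _ := h8
      _ ≤ ((m : ℝ) ^ d * n) ^ (1 + s / d) * ((1 + δ) * c + δ) := mul_le_mul_of_nonneg_left h11 (by positivity)
      _ ≤ (N : ℝ) ^ (1 + s / d) * (1 + δ) * ((1 + δ) * c + δ) := mul_le_mul_of_nonneg_right h9 h12
      _ = _ := by ring
  have hNp : (0:ℝ) < (N : ℝ) ^ (1 + s / d) := by positivity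
  show Ecube s d N / (N : ℝ) ^ (1 + s / d) ≤ (1 + δ₀) * c + δ₀
  rw [div_le_iff₀ hNp]
  have h14 : (1 + δ) * ((1 + δ) * c + δ) ≤ (1 + δ₀) * c + δ₀ := by
    have := mul_le_mul_of_nonneg_right hδ1 hc0
    nlinarith
  have h15 := mul_le_mul_of_nonneg_left h14 hNp.le
  linarith

end Helper23.Riesz
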