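import Pool.Agent.Helper23.Riesz.Defs

/-!
# Riesz energy: integrability of the kernel
-/

set_option autoImplicit false
open MeasureTheory Set Filter Topology
open scoped ENNReal NNReal

namespace Helper23.Riesz

lemma measurable_K_left (s : ℝ) {d : ℕ} (x : S d) : Measurable (fun y : S d => K s x y) := by
  have h : Measurable (fun y : S d => dist x y) := (continuous_const.dist continuous_id).measurable
  exact h.pow_const _

/-- `integrable_K` from explicit hypotheses -/
theorem integrable_K_aux {d : ℕ} {s : ℝ} (hs : 0 < s) (hsd : s < d)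
    (hprob : IsProbabilityMeasure (sig d))
    (hball : ∃ C : ℝ, 0 < C ∧ ∀ (x : S d) (r : ℝ), 0 ≤ r →
      (sig d).real (Metric.closedBall x r) ≤ C * r ^ d) (x : S d) :
    Integrable (fun y => K s x y) (sig d) := by
  obtain ⟨C, hC, hball⟩ := hball
  refine ⟨(measurable_K_left s x).aestronglyMeasurable, ?_⟩
  have h0 : ∫⁻ y, ‖K s x y‖ₑ ∂(sig d) = ∫⁻ y, ENNReal.ofReal (K s x y) ∂(sig d) := by
    refine lintegral_congr fun y => ?_
    rw [Real.enorm_of_nonneg (K_nonneg s x y)]
  rw [HasFiniteIntegral, h0, lintegral_eq_lintegral_meas_le _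
    (Eventually.of_forall fun y => K_nonneg s x y) (measurable_K_left s x).aemeasurable]
  have hsplit : (Ioi (0:ℝ)) = Ioc 0 1 ∪ Ioi 1 := (Ioc_union_Ioi_eq_Ioi zero_le_one).symm
  rw [hsplit]
  refine lt_of_le_of_lt (lintegral_union_le _ _ _) (ENNReal.add_lt_top.2 ⟨?_, ?_⟩)
  · calc ∫⁻ t in Ioc (0:ℝ) 1, sig d {y | t ≤ K s x y} ≤ ∫⁻ t in Ioc (0:ℝ) 1, 1 := by
          refine lintegral_mono fun t => ?_
          exact prob_le_one
      _ = 1 := by simp
      _ < ⊤ := ENNReal.one_lt_top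
  · have hexp : (-(d:ℝ) / s) < -1 := by
      rw [neg_div, neg_lt_neg_iff, one_lt_div hs]
      exact hsd
    have hI : IntegrableOn (fun t : ℝ => C * t ^ (-(d:ℝ) / s)) (Ioi 1) :=
      (integrableOn_Ioi_rpow_of_lt hexp zero_lt_one).const_mul C
    have hfin : ∫⁻ t in Ioi (1:ℝ), ENNReal.ofReal (C * t ^ (-(d:ℝ) / s)) < ⊤ := by
      have h1 := hI.2
      rw [HasFiniteIntegral] at h1
      refine lt_of_le_of_lt ?_ h1
      refine lintegral_mono fun t => ?_
      exact Real.ofReal_le_enorm _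
    refine lt_of_le_of_lt (setLIntegral_mono' measurableSet_Ioi fun t ht => ?_) hfin
    have ht0 : (0:ℝ) < t := lt_trans zero_lt_one ht
    have hsub : {y | t ≤ K s x y} ⊆ Metric.closedBall x (t ^ (-(1:ℝ) / s)) := by
      intro y hy
      have hy' : t ≤ (dist x y) ^ (-s) := hy
      rw [Metric.mem_closedBall, dist_comm]
      have h2 : ((dist x y) ^ (-s)) ^ (-(1:ℝ) / s) ≤ t ^ (-(1:ℝ) / s) := by
        refine Real.rpow_le_rpow_of_nonpos ht0 hy' ?_
        rw [neg_div]
        exact neg_nonpos.2 (by positivity)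
      rw [← Real.rpow_mul dist_nonneg] at h2
      have h3 : -s * (-(1:ℝ) / s) = 1 := by field_simp
      rw [h3, Real.rpow_one] at h2
      exact h2
    have h4 : sig d {y | t ≤ K s x y} ≤ sig d (Metric.closedBall x (t ^ (-(1:ℝ) / s))) :=
      measure_mono hsub
    refine h4.trans ?_
    have h5 := hball x (t ^ (-(1:ℝ) / s)) (Real.rpow_nonneg ht0.le _)
    have h6 : (t ^ (-(1:ℝ) / s)) ^ d = t ^ (-(d:ℝ) / s) := by
      rw [← Real.rpow_natCast, ← Real.rpow_mul ht0.le]
      ring_nf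
    rw [h6] at h5
    rw [← ofReal_measureReal]
    exact ENNReal.ofReal_le_ofReal h5

/-- `integral_K` from explicit hypotheses -/
theorem integral_K_aux {d : ℕ} {s : ℝ}
    (hzonal : ∀ (f : ℝ → ℝ) (x : S d),
      ∫ y, f (dist x y) ∂(sig d) = avg2 (fun x y : S d => f (dist x y))) (x : S d) :
    ∫ y, K s x y ∂(sig d) = V s d := by
  have h := hzonal (fun r => r ^ (-s)) x
  exact h

/-- `V_pos` from explicit hypotheses -/
theorem V_pos_aux {d : ℕ} {s : ℝ} (hs : 0 < s)
    (hprob : IsProbabilityMeasure (sig d))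
    (hint : ∀ x : S d, Integrable (fun y => K s x y) (sig d))
    (hv : ∀ x : S d, ∫ y, K s x y ∂(sig d) = V s d)
    (hsing : ∀ x : S d, sig d {x} = 0) : 0 < V s d := by
  have x : S d := ⟨EuclideanSpace.single (Fin.last d) (1:ℝ), by simp⟩
  rw [← hv x]
  have h1 : ∫ y : S d, (2:ℝ) ^ (-s) ∂(sig d) ≤ ∫ y, K s x y ∂(sig d) := by
    refine integral_mono_ae (integrable_const _) (hint x) ?_
    have hae : ∀ᵐ y ∂(sig d), y ≠ x := by
      rw [ae_iff]
      simpa using hsing x
    filter_upwards [hae] with y hy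
    unfold K
    refine Real.rpow_le_rpow_of_nonpos (dist_pos.2 (Ne.symm hy)) (dist_le_two x y) ?_
    linarith
  have h2 : ∫ y : S d, (2:ℝ) ^ (-s) ∂(sig d) = 2 ^ (-s) := by simp
  rw [h2] at h1
  have : (0:ℝ) < 2 ^ (-s) := by positivity
  linarith

end Helper23.Riesz
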