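import Pool.Agent.Helper94.Riesz.Greedy

/-!
# Riesz energy: comparison of the minimal energy of `N` points with the energy of any finite set
-/

set_option autoImplicit false
open MeasureTheory Set Filter Topology
open scoped ENNReal NNReal

namespace Helper23.Riesz

/-- a power smaller than `2` is dominated by the square -/
lemma exists_sq_bound {p A v : ℝ} (hp0 : 0 ≤ p) (hp : p < 1) (hA : 0 ≤ A) (hv : 0 < v) :
    ∃ B : ℝ, 0 ≤ B ∧ ∀ a : ℝ, 0 ≤ a → A * (a * a ^ p) ≤ v * a ^ 2 + B := by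
  set M : ℝ := (A / v) ^ (1 / (1 - p)) with hM
  have hM0 : 0 ≤ M := by rw [hM]; exact Real.rpow_nonneg (by positivity) _
  refine ⟨A * (M * M ^ p), by positivity, fun a ha => ?_⟩
  rcases le_total M a with h | h
  · -- a^{1-p} ≥ A / v
    have h1 : A / v ≤ a ^ (1 - p) := by
      have h2 : M ^ (1 - p) ≤ a ^ (1 - p) := Real.rpow_le_rpow hM0 h (by linarith)
      rw [hM, ← Real.rpow_mul (by positivity)] at h2
      rw [one_div, inv_mul_cancel₀ (by linarith), Real.rpow_one] at h2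
      exact h2
    have h3 : A ≤ v * a ^ (1 - p) := by
      rw [div_le_iff₀ hv] at h1
      linarith
    rcases eq_or_lt_of_le ha with h0 | h0
    · rw [← h0]
      have : 0 ≤ A * (M * M ^ p) := by positivity
      simp only [zero_mul, mul_zero]
      nlinarith
    · have h4 : a ^ (1 - p) * a ^ p = a := by
        rw [← Real.rpow_add h0]
        have : 1 - p + p = 1 := by ring
        rw [this, Real.rpow_one]
      have h5 : A * (a * a ^ p) ≤ v * a ^ (1 - p) * (a * a ^ p) :=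
        mul_le_mul_of_nonneg_right h3 (by positivity)
      have h6 : v * a ^ (1 - p) * (a * a ^ p) = v * a ^ 2 := by
        calc v * a ^ (1 - p) * (a * a ^ p) = v * (a * (a ^ (1 - p) * a ^ p)) := by ring
          _ = v * a ^ 2 := by rw [h4]; ring
      have : 0 ≤ A * (M * M ^ p) := by positivity
      linarith
  · have h1 : A * (a * a ^ p) ≤ A * (M * M ^ p) := by
      refine mul_le_mul_of_nonneg_left ?_ hA
      exact mul_le_mul h (Real.rpow_le_rpow ha h hp0) (Real.rpow_nonneg ha _) hM0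
    have : 0 ≤ v * a ^ 2 := by positivity
    linarith

/-- subadditivity of powers -/
lemma rpow_add_le {p a b : ℝ} (hp0 : 0 ≤ p) (hp : p ≤ 1) (ha : 0 ≤ a) (hb : 0 ≤ b) :
    (a + b) ^ p ≤ a ^ p + b ^ p := by
  have h := NNReal.rpow_add_le_add_rpow (⟨a, ha⟩ : ℝ≥0) ⟨b, hb⟩ hp0 hp
  exact_mod_cast h

/-- the final inequality in the case `N < M` -/
lemma removal_ineq {p v C₁ : ℝ} (hp0 : 0 ≤ p) (hp : p < 1) (hv : 0 < v) (hC₁ : 0 ≤ C₁) :
    ∃ C₂ : ℝ, 0 ≤ C₂ ∧ ∀ (n a : ℝ), 1 ≤ n → 1 ≤ a → ∀ (r e : ℝ),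
      r * ((n + a) * (n + a - 1)) = n * (n - 1) →
      -C₁ * ((n + a) * (n + a) ^ p) ≤ e →
      r * e ≤ e + v * a ^ 2 + C₂ * n ^ (2 * p) := by
  obtain ⟨B, hB0, hB⟩ := exists_sq_bound (p := p) (A := 2 * C₁) (v := v / 2) hp0 hp (by positivity) (by positivity)
  refine ⟨2 * C₁ ^ 2 / v + B, by positivity, fun n a hn ha r e hr he => ?_⟩
  have hm : (0:ℝ) < n + a := by linarith
  have hm1 : (0:ℝ) < n + a - 1 := by linarith
  have hn0 : (0:ℝ) ≤ n := by linarith
  have hr' : r = n * (n - 1) / ((n + a) * (n + a - 1)) := by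
    rw [eq_div_iff (by positivity)]; exact hr
  have hr0 : 0 ≤ r := by
    rw [hr']
    have : 0 ≤ n - 1 := by linarith
    positivity
  -- 1 - r ≤ 2 a / (n + a)
  have h1r : (1 - r) * (n + a) ≤ 2 * a := by
    have h1 : (1 - r) * (n + a) * (n + a - 1) ≤ 2 * a * (n + a - 1) := by
      have : (1 - r) * (n + a) * (n + a - 1) = (n + a) * (n + a - 1) - n * (n - 1) := by
        rw [← hr]; ring
      rw [this]
      nlinarith
    exact le_of_mul_le_mul_right h1 hm1
  have h1r0 : 0 ≤ 1 - r := by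
    have h1 : 0 ≤ (1 - r) * ((n + a) * (n + a - 1)) := by
      have : (1 - r) * ((n + a) * (n + a - 1)) = (n + a) * (n + a - 1) - n * (n - 1) := by
        rw [← hr]; ring
      rw [this]
      nlinarith
    exact nonneg_of_mul_nonneg_left h1 (by positivity)
  have hpow : 0 ≤ (n + a) ^ p := Real.rpow_nonneg hm.le _
  have h2 : -(1 - r) * e ≤ C₁ * (2 * a) * (n + a) ^ p := by
    have h3 : (1 - r) * (-C₁ * ((n + a) * (n + a) ^ p)) ≤ (1 - r) * e :=
      mul_le_mul_of_nonneg_left he h1r0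
    have h4 : (1 - r) * (n + a) * (C₁ * (n + a) ^ p) ≤ 2 * a * (C₁ * (n + a) ^ p) :=
      mul_le_mul_of_nonneg_right h1r (by positivity)
    nlinarith [h3, h4]
  have h5 : (n + a) ^ p ≤ n ^ p + a ^ p := rpow_add_le hp0 hp.le hn0 (by linarith)
  have h6 : C₁ * (2 * a) * (n + a) ^ p ≤ C₁ * (2 * a) * (n ^ p + a ^ p) :=
    mul_le_mul_of_nonneg_left h5 (by positivity)
  have h7 : 2 * C₁ * (a * a ^ p) ≤ v / 2 * a ^ 2 + B := hB a (by linarith)
  have h8 : n ^ (2 * p) = (n ^ p) ^ 2 := by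
    rw [mul_comm, Real.rpow_mul hn0]
    exact_mod_cast Real.rpow_natCast (n ^ p) 2
  have h9 : 2 * C₁ * a * n ^ p ≤ v / 2 * a ^ 2 + 2 * C₁ ^ 2 / v * (n ^ p) ^ 2 := by
    have h10 : 0 ≤ (v * a - 2 * C₁ * n ^ p) ^ 2 / (2 * v) := by positivity
    have h11 : (v * a - 2 * C₁ * n ^ p) ^ 2 / (2 * v) =
        v / 2 * a ^ 2 + 2 * C₁ ^ 2 / v * (n ^ p) ^ 2 - 2 * C₁ * a * n ^ p := by
      field_simp
      ring
    linarith
  have h12 : B ≤ B * n ^ (2 * p) := by
    have : (1:ℝ) ≤ n ^ (2 * p) := Real.one_le_rpow hn (by positivity)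
    nlinarith
  rw [h8] at *
  nlinarith [h2, h6, h7, h9, h12]

/-- `mismatch` from explicit hypotheses -/
theorem mismatch_aux {d : ℕ} (hd : 1 ≤ d) {s : ℝ} (hs : 0 < s) (hsd : s < d)
    (hprob : IsProbabilityMeasure (sig d))
    (hint : ∀ x : S d, Integrable (fun y => K s x y) (sig d))
    (hv : ∀ x : S d, ∫ y, K s x y ∂(sig d) = V s d)
    (hVpos : 0 < V s d)
    (hsing : ∀ x : S d, sig d {x} = 0) (C₁ : ℝ)
    (hC₁ : ∀ Y : Finset (S d), -C₁ * (Y.card : ℝ) ^ (1 + s / d) ≤ en s Y - (Y.card : ℝ) ^ 2 * V s d) :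
    ∃ C₂ : ℝ, ∀ N : ℕ, 1 ≤ N → ∀ Y : Finset (S d),
      Emin s d N - (N : ℝ) ^ 2 * V s d ≤
        en s Y - 2 * N * Y.card * V s d + (N : ℝ) ^ 2 * V s d + C₂ * (N : ℝ) ^ (2 * s / d) := by
  have hd0 : (0:ℝ) < d := by exact_mod_cast hd
  have hp0 : 0 ≤ s / d := by positivity
  have hp1 : s / d < 1 := by rw [div_lt_one hd0]; exact hsd
  obtain ⟨C₂, hC₂0, hC₂⟩ := removal_ineq (p := s / d) (v := V s d) (C₁ := max C₁ 0) hp0 hp1 hVpos (le_max_right _ _)
  refine ⟨C₂, fun N hN Y => ?_⟩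
  have hN1 : (1:ℝ) ≤ N := by exact_mod_cast hN
  have hNp : 0 ≤ C₂ * (N : ℝ) ^ (2 * s / d) := by positivity
  rcases le_or_gt Y.card N with h | h
  · obtain ⟨k, hk⟩ := Nat.exists_eq_add_of_le h
    obtain ⟨Z, hZ, hZe⟩ := exists_add_many hs hint hv hsing Y k
    have hE : Emin s d N ≤ en s Z := by
      rw [hk, ← hZ]; exact Emin_le s Z
    have hNk : (N : ℝ) = Y.card + k := by rw [hk]; push_cast; ring
    rw [← hNk] at hZe
    have hk0 : (0:ℝ) ≤ k := Nat.cast_nonneg k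
    have hm : (Y.card : ℝ) = N - k := by linarith
    have hgoal : V s d * ((N:ℝ) * (N - 1) - Y.card * (Y.card - 1)) - (N:ℝ) ^ 2 * V s d
        ≤ - 2 * N * Y.card * V s d + (N : ℝ) ^ 2 * V s d := by
      rw [hm]
      have : 0 ≤ V s d * (k ^ 2 + k) := by positivity
      nlinarith
    linarith
  · obtain ⟨k, hk⟩ := Nat.exists_eq_add_of_lt h
    obtain ⟨Z, hZ, hZe⟩ := exists_remove_many hs Y (k + 1) (by omega)
    have hZN : Z.card = N := by omega
    have hE : Emin s d N ≤ en s Z := by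
      rw [← hZN]; exact Emin_le s Z
    have hm : (Y.card : ℝ) = N + ((k : ℝ) + 1) := by rw [hk]; push_cast; ring
    set a : ℝ := (k : ℝ) + 1 with ha
    have ha1 : 1 ≤ a := by
      have : (0:ℝ) ≤ k := Nat.cast_nonneg k
      linarith
    set m : ℝ := (Y.card : ℝ) with hmdef
    have hm1 : 0 < m * (m - 1) := by
      rw [hm]
      have h1 : (0:ℝ) < N + a := by linarith
      have h2 : (0:ℝ) < N + a - 1 := by linarith
      positivity
    set r : ℝ := (N : ℝ) * (N - 1) / (m * (m - 1)) with hr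
    have hre : r * (((N:ℝ) + a) * ((N:ℝ) + a - 1)) = N * (N - 1) := by
      rw [← hm, hr]
      exact div_mul_cancel₀ _ hm1.ne'
    have hZ' : en s Z ≤ r * en s Y := by
      have h1 : m - ((k + 1 : ℕ) : ℝ) = N := by rw [hm, ha]; push_cast; ring
      rw [h1] at hZe
      rw [hr, div_mul_eq_mul_div, le_div_iff₀ hm1]
      linarith
    set e : ℝ := en s Y - m ^ 2 * V s d with he
    have hlow : -(max C₁ 0) * (((N:ℝ) + a) * ((N:ℝ) + a) ^ (s / d)) ≤ e := by
      have h1 := hC₁ Y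
      rw [← hmdef] at h1
      have hm0 : 0 < m := by rw [hm]; linarith
      have h2 : m ^ (1 + s / d) = m * m ^ (s / d) := by
        rw [Real.rpow_add hm0, Real.rpow_one]
      rw [h2] at h1
      have h3 : C₁ * (m * m ^ (s / d)) ≤ max C₁ 0 * (m * m ^ (s / d)) :=
        mul_le_mul_of_nonneg_right (le_max_left _ _) (by positivity)
      rw [← hm, he]
      linarith
    have hkey := hC₂ N a hN1 ha1 r e hre hlow
    have h2p : 2 * (s / d) = 2 * s / d := by ring
    rw [h2p] at hkey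
    -- r m² ≤ N²
    have hrm : r * m ^ 2 ≤ (N:ℝ) ^ 2 := by
      rw [hr, div_mul_eq_mul_div, div_le_iff₀ hm1]
      have h3 : (0:ℝ) < m := by rw [hm]; linarith
      have h4 : (N:ℝ) ≤ m := by rw [hm]; linarith
      have h5 : (N:ℝ) * (N - 1) * m ^ 2 ≤ (N:ℝ) ^ 2 * (m * (m - 1)) := by
        have h6 : 0 ≤ (N:ℝ) * m * (m - N) := by
          have : 0 ≤ m - N := by linarith
          positivity
        nlinarith
      exact h5
    have h7 : r * en s Y = r * e + r * m ^ 2 * V s d := by rw [he]; ring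
    have h8 : r * m ^ 2 * V s d ≤ (N:ℝ) ^ 2 * V s d := mul_le_mul_of_nonneg_right hrm hVpos.le
    have h9 : e + V s d * a ^ 2 = en s Y - 2 * N * m * V s d + (N : ℝ) ^ 2 * V s d := by
      rw [he, hm]; ring
    linarith

end Helper23.Riesz
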