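import Pool.Agent.Helper27.Riesz.Haar
import Pool.Agent.Helper69.Riesz.StereoC
import Pool.Agent.Helper94.Riesz.Mismatch
import Pool.Agent.Helper94.Riesz.Fact

/-!
# Riesz energy: modules FACT and MIS with the names of the skeleton
-/

set_option autoImplicit false
open MeasureTheory Set Filter Topology
open scoped ENNReal NNReal

namespace Helper23.Riesz

theorem integrable_K {d : ℕ} (hd : 1 ≤ d) {s : ℝ} (hs : 0 < s) (hsd : s < d) (x : S d) :
    Integrable (fun y => K s x y) (sig d) :=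
  integrable_K_aux hs hsd (isProbabilityMeasure_sig d) (sig_closedBall_le hd) x

theorem integral_K {d : ℕ} {s : ℝ} (x : S d) : ∫ y, K s x y ∂(sig d) = V s d :=
  integral_K_aux zonal x

theorem V_pos {d : ℕ} (hd : 1 ≤ d) {s : ℝ} (hs : 0 < s) (hsd : s < d) : 0 < V s d :=
  V_pos_aux hs (isProbabilityMeasure_sig d) (integrable_K hd hs hsd) integral_K (sig_singleton hd)

theorem mismatch {d : ℕ} (hd : 1 ≤ d) {s : ℝ} (hs : 0 < s) (hsd : s < d) (C₁ : ℝ)
    (hC₁ : ∀ Y : Finset (S d), -C₁ * (Y.card : ℝ) ^ (1 + s / d) ≤ en s Y - (Y.card : ℝ) ^ 2 * V s d) :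
    ∃ C₂ : ℝ, ∀ N : ℕ, 1 ≤ N → ∀ Y : Finset (S d),
      Emin s d N - (N : ℝ) ^ 2 * V s d ≤
        en s Y - 2 * N * Y.card * V s d + (N : ℝ) ^ 2 * V s d + C₂ * (N : ℝ) ^ (2 * s / d) :=
  mismatch_aux hd hs hsd (isProbabilityMeasure_sig d) (integrable_K hd hs hsd) integral_K
    (V_pos hd hs hsd) (sig_singleton hd) C₁ hC₁

end Helper23.Riesz
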