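import Pool.Agent.Helper95.Riesz.SDefs

/-!
# Riesz energy: module PULL (random stereographic pullback of a configuration)
-/

set_option autoImplicit false
open MeasureTheory Set Filter Topology
open scoped ENNReal NNReal FourierTransform SchwartzMap

namespace Helper23.Riesz

variable {d : ℕ}

/-- the conformal density at scale `ς` -/
noncomputable def hsc {d : ℕ} (ς : ℝ) (y : R d) : ℝ := (lam ((ς / 2) • y) / 2) ^ d

namespace Pull

lemma measurableSet_Bx (Λ : ℝ) : MeasurableSet (Bx d Λ) := by
  have : Bx d Λ = ⋂ k, {x : R d | |x k| ≤ Λ} := by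
    ext x; simp [Bx]
  rw [this]
  refine MeasurableSet.iInter fun k => ?_
  exact measurableSet_le (by fun_prop) measurable_const

lemma volume_Bx {Λ : ℝ} (hΛ : 0 < Λ) :
    (volume : Measure (R d)) (Bx d Λ) = ENNReal.ofReal ((2 * Λ) ^ d) := by
  have h1 : Bx d Λ = (MeasurableEquiv.toLp 2 (Fin d → ℝ)).symm ⁻¹'
      (Set.Icc (fun _ => -Λ) (fun _ => Λ)) := by
    ext x
    simp only [Bx, mem_ofPred_eq, mem_preimage, mem_Icc, Pi.le_def, abs_le]
    constructor
    · intro h
      exact ⟨fun k => (h k).1, fun k => (h k).2⟩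
    · intro h k
      exact ⟨h.1 k, h.2 k⟩
  rw [h1, (EuclideanSpace.volume_preserving_symm_measurableEquiv_toLp (Fin d)).measure_preimage
    measurableSet_Icc.nullMeasurableSet, Real.volume_Icc_pi]
  rw [Finset.prod_const, Finset.card_univ, Fintype.card_fin, ENNReal.ofReal_pow (by linarith)]
  congr 2
  ring

lemma measurable_hsc (ς : ℝ) : Measurable (hsc ς : R d → ℝ) := by
  unfold hsc
  have := (continuous_lam (d := d)).measurable
  fun_prop

lemma hsc_le_one (ς : ℝ) (y : R d) : hsc ς y ≤ 1 := by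
  unfold hsc
  refine pow_le_one₀ (by have := lam_pos ((ς / 2) • y); positivity) ?_
  have := lam_le_two ((ς / 2) • y)
  linarith

/-- integration against a configuration -/
lemma integral_cfg {n : ℕ} (Λ : ℝ) (y : Fin n → R d) (f : R d → ℝ) :
    ∫ x, f x ∂(cfg Λ y) = ∑ i, (Bx d Λ).indicator f (y i) := by
  unfold cfg
  rw [← integral_indicator (measurableSet_Bx Λ), integral_finsetSum_measure]
  · exact Finset.sum_congr rfl fun i _ => integral_dirac _ _
  · intro i _
    exact integrable_dirac enorm_lt_top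

lemma cfg_apply {n : ℕ} (Λ : ℝ) (y : Fin n → R d) {B : Set (R d)} (hB : MeasurableSet B) :
    cfg Λ y B = ∑ i, (B ∩ Bx d Λ).indicator 1 (y i) := by
  unfold cfg
  rw [Measure.restrict_apply hB, Measure.finsetSum_apply]
  refine Finset.sum_congr rfl fun i _ => ?_
  rw [Measure.dirac_apply' _ (hB.inter (measurableSet_Bx Λ))]

/-- the law of the pulled back point -/
lemma sig_pull (hd : 1 ≤ d) {ς : ℝ} (hς : 0 < ς) (si : S d → R d) (hsi : Measurable si)
    (h1 : ∀ y, si (Th y) = y) {A : Set (R d)} (hA : MeasurableSet A) :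
    sig d {p | (2 / ς) • si p ∈ A} = ENNReal.ofReal (ς ^ d / omega d) *
      ∫⁻ y in A, ENNReal.ofReal (hsc ς y) := by
  have hς0 : ς ≠ 0 := hς.ne'
  have hm : MeasurableSet {p : S d | (2 / ς) • si p ∈ A} := (hsi.const_smul (2 / ς)) hA
  set C : Set (R d) := {y | (2 / ς) • y ∈ A} with hC
  have hCm : MeasurableSet C := (measurable_id.const_smul (2 / ς)) hA
  have h2 : sig d {p | (2 / ς) • si p ∈ A} = sig d (Th '' C) := by
    have e : Th '' C = {p | (2 / ς) • si p ∈ A} \ {north d} := by
      ext p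
      constructor
      · rintro ⟨y, hy, rfl⟩
        refine ⟨?_, ?_⟩
        · show (2 / ς) • si (Th y) ∈ A
          rw [h1]; exact hy
        · have : Th y ∈ ({north d}ᶜ : Set (S d)) := by
            rw [← range_Th]; exact ⟨y, rfl⟩
          exact this
      · rintro ⟨hp, hp2⟩
        have : p ∈ Set.range (Th : R d → S d) := by
          rw [range_Th]; exact hp2
        obtain ⟨y, rfl⟩ := this
        refine ⟨y, ?_, rfl⟩
        have hp' : (2 / ς) • si (Th y) ∈ A := hp
        rw [h1] at hp'
        exact hp'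
    rw [e, measure_sdiff_null (sig_singleton hd _)]
  rw [h2, sig_Th hd C hCm]
  -- change of variables
  have h3 : ∫⁻ y in C, ENNReal.ofReal (lam y ^ d) =
      ENNReal.ofReal ((ς / 2) ^ d) * ∫⁻ y in A, ENNReal.ofReal (lam ((ς / 2) • y) ^ d) := by
    have hmap := Measure.map_addHaar_smul (volume : Measure (R d))
      (r := ς / 2) (by positivity)
    rw [finrank_euclideanSpace_fin] at hmap
    have hemb : MeasurableEmbedding (fun y : R d => (ς / 2) • y) :=
      (measurableEmbedding_const_smul₀ (by positivity : ς / 2 ≠ 0))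
    have e1 : ∫⁻ y in C, ENNReal.ofReal (lam y ^ d) ∂(Measure.map (fun y : R d => (ς / 2) • y)
        volume) = ∫⁻ y in A, ENNReal.ofReal (lam ((ς / 2) • y) ^ d) := by
      rw [← lintegral_indicator hCm, hemb.lintegral_map, ← lintegral_indicator hA]
      refine lintegral_congr fun y => ?_
      by_cases hy : y ∈ A
      · rw [indicator_of_mem hy, indicator_of_mem]
        show (2 / ς) • ((ς / 2) • y) ∈ A
        rw [smul_smul, show 2 / ς * (ς / 2) = 1 by field_simp, one_smul]
        exact hy
      · rw [indicator_of_notMem hy, indicator_of_notMem]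
        intro h
        apply hy
        have h' : (2 / ς) • ((ς / 2) • y) ∈ A := h
        rwa [smul_smul, show 2 / ς * (ς / 2) = 1 by field_simp, one_smul] at h'
    rw [hmap, Measure.restrict_smul, lintegral_smul_measure, smul_eq_mul] at e1
    rw [← e1, ← mul_assoc, ← ENNReal.ofReal_mul (by positivity), abs_of_pos (by positivity),
      mul_inv_cancel₀ (by positivity), ENNReal.ofReal_one, one_mul]
  rw [h3, ← mul_assoc, ← ENNReal.ofReal_mul (by have := omega_pos hd; positivity)]
  have h4 : ∫⁻ y in A, ENNReal.ofReal (lam ((ς / 2) • y) ^ d) =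
      ENNReal.ofReal (2 ^ d) * ∫⁻ y in A, ENNReal.ofReal (hsc ς y) := by
    rw [← lintegral_const_mul _ (measurable_hsc ς).ennreal_ofReal]
    refine lintegral_congr fun y => ?_
    rw [← ENNReal.ofReal_mul (by positivity)]
    congr 1
    unfold hsc
    rw [div_pow]
    field_simp
  rw [h4, ← mul_assoc, ← ENNReal.ofReal_mul (by have := omega_pos hd; positivity)]
  congr 2
  rw [div_pow]
  field_simp

end Pull

open Pull in
theorem pullback (hd : 1 ≤ d) (X : Finset (S d)) (hX : 0 < X.card) {M Λ ς : ℝ} (hM : 0 < M)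
    (hΛ : 0 < Λ) (hς : ς = M * (omega d / X.card) ^ (1 / (d:ℝ))) :
    ∃ (O : Type) (_ : MeasurableSpace O) (P : Measure O) (Y : O → Fin X.card → R d),
      IsProbabilityMeasure P ∧ (∀ i, Measurable fun o => Y o i) ∧
      (∀ B : Set (R d), MeasurableSet B → ∫⁻ o, cfg Λ (Y o) B ∂P = rhoB M Λ (hsc ς) B) ∧
      ∀ t : ℝ, 0 < t → ∫ o, Qt t (cfg Λ (Y o)) (cfg Λ (Y o)) ∂P ≤
        (2 * Λ) ^ d * M ^ d / X.card *
          ∑ x ∈ X, ∑ y ∈ X, Real.exp (-(t / ς ^ 2 * dist x y ^ 2)) := by
  have hω := omega_pos hd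
  have hN : (0 : ℝ) < X.card := by exact_mod_cast hX
  have hς0 : 0 < ς := by rw [hς]; positivity
  have hςd : ς ^ d = M ^ d * (omega d / X.card) := by
    rw [hς, mul_pow, ← Real.rpow_natCast ((omega d / X.card) ^ (1 / (d:ℝ))) d,
      ← Real.rpow_mul (by positivity), one_div, inv_mul_cancel₀ (by positivity), Real.rpow_one]
  obtain ⟨O, mO, P, a, hP, ha, hlaw⟩ := exists_haar d
  have hne : Nonempty (R d) := ⟨0⟩
  obtain ⟨si, hsi, hsi2⟩ := (measurableEmbedding_Th (d := d)).exists_measurable_extend
    (g := (id : R d → R d)) measurable_id (fun _ => hne)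
  have hsi1 : ∀ y, si (Th y) = y := fun y => congrFun hsi2 y
  set e : Fin X.card ≃ X := X.equivFin.symm with he
  set Z : O → Fin X.card → S d := fun o i => rot (a o) (e i) with hZ
  have hZm : ∀ i, Measurable fun o => Z o i := fun i =>
    ha.comp (measurable_id.prodMk measurable_const)
  set Y : O → Fin X.card → R d := fun o i => (2 / ς) • si (Z o i) with hY
  have hYm : ∀ i, Measurable fun o => Y o i := fun i => by
    have := (hsi.comp (hZm i)).const_smul (2 / ς)
    exact this
  -- law of one point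
  have hlaw1 : ∀ i (A : Set (R d)), MeasurableSet A → P {o | Y o i ∈ A} =
      ENNReal.ofReal (M ^ d / X.card) * ∫⁻ y in A, ENNReal.ofReal (hsc ς y) := by
    intro i A hA
    have hm : MeasurableSet {p : S d | (2 / ς) • si p ∈ A} := (hsi.const_smul (2 / ς)) hA
    have e1 : P {o | Y o i ∈ A} = sig d {p | (2 / ς) • si p ∈ A} := by
      rw [← hlaw (e i : S d), Measure.map_apply (hZm i) hm]
      rfl
    rw [e1, sig_pull hd hς0 si hsi hsi1 hA, hςd]
    congr 2
    field_simp
  have hmean : ∀ B : Set (R d), MeasurableSet B →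
      ∫⁻ o, cfg Λ (Y o) B ∂P = rhoB M Λ (hsc ς) B := by
    intro B hB
    have hBm := hB.inter (measurableSet_Bx (d := d) Λ)
    simp only [cfg_apply Λ _ hB]
    have hmi : ∀ i ∈ (Finset.univ : Finset (Fin X.card)), Measurable fun o =>
        (B ∩ Bx d Λ).indicator (1 : R d → ℝ≥0∞) (Y o i) := fun i _ =>
      (measurable_one.indicator hBm).comp (hYm i)
    rw [lintegral_finsetSum _ hmi]
    have e2 : ∀ i, ∫⁻ o, (B ∩ Bx d Λ).indicator (1 : R d → ℝ≥0∞) (Y o i) ∂P =
        ENNReal.ofReal (M ^ d / X.card) * ∫⁻ y in B ∩ Bx d Λ, ENNReal.ofReal (hsc ς y) := by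
      intro i
      rw [← hlaw1 i _ hBm]
      have : (fun o => (B ∩ Bx d Λ).indicator (1 : R d → ℝ≥0∞) (Y o i)) =
          {o | Y o i ∈ B ∩ Bx d Λ}.indicator 1 := by
        funext o
        by_cases h : Y o i ∈ B ∩ Bx d Λ
        · rw [indicator_of_mem h, indicator_of_mem (show o ∈ {o | Y o i ∈ B ∩ Bx d Λ} from h)]
          rfl
        · rw [indicator_of_notMem h, indicator_of_notMem (show o ∉ {o | Y o i ∈ B ∩ Bx d Λ} from h)]
      have hms : MeasurableSet {o | Y o i ∈ B ∩ Bx d Λ} := (hYm i) hBm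
      rw [this]
      exact lintegral_indicator_one hms
    rw [Finset.sum_congr rfl fun i _ => e2 i, Finset.sum_const, Finset.card_univ, Fintype.card_fin,
      nsmul_eq_mul, ← mul_assoc, ← ENNReal.ofReal_natCast, ← ENNReal.ofReal_mul (by positivity),
      mul_div_cancel₀ _ hN.ne']
    unfold rhoB
    rw [withDensity_apply _ hB, Measure.restrict_restrict hB,
      ← lintegral_const_mul _ (measurable_hsc ς).ennreal_ofReal]
    refine lintegral_congr fun y => ?_
    rw [ENNReal.ofReal_mul (by positivity)]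
  have hPB : ∀ i, (P {o | Y o i ∈ Bx d Λ}).toReal ≤ (2 * Λ) ^ d * M ^ d / X.card := by
    intro i
    have h1 := hlaw1 i _ (measurableSet_Bx Λ)
    have h2 : ∫⁻ y in Bx d Λ, ENNReal.ofReal (hsc ς y) ≤ ENNReal.ofReal ((2 * Λ) ^ d) := by
      calc ∫⁻ y in Bx d Λ, ENNReal.ofReal (hsc ς y) ≤ ∫⁻ y in Bx d Λ, 1 := by
            refine lintegral_mono fun y => ?_
            rw [← ENNReal.ofReal_one]
            exact ENNReal.ofReal_le_ofReal (hsc_le_one ς y)
        _ = ENNReal.ofReal ((2 * Λ) ^ d) := by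
            rw [setLIntegral_const, one_mul, volume_Bx hΛ]
    refine ENNReal.toReal_le_of_le_ofReal (by positivity) ?_
    rw [h1]
    calc _ ≤ ENNReal.ofReal (M ^ d / X.card) * ENNReal.ofReal ((2 * Λ) ^ d) := by gcongr
      _ = ENNReal.ofReal ((2 * Λ) ^ d * M ^ d / X.card) := by
        rw [← ENNReal.ofReal_mul (by positivity)]
        congr 1
        ring
  refine ⟨O, mO, P, Y, hP, hYm, hmean, ?_⟩
  intro t ht
  set c : Fin X.card → ℝ := fun i =>
    ∑ j, Real.exp (-(t / ς ^ 2 * dist (e i : S d) (e j : S d) ^ 2)) with hc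
  have hc0 : ∀ i, 0 ≤ c i := fun i => Finset.sum_nonneg fun j _ => (Real.exp_pos _).le
  have hQ : ∀ o, Qt t (cfg Λ (Y o)) (cfg Λ (Y o)) =
      ∑ i, (Bx d Λ).indicator (fun x => ∑ j, (Bx d Λ).indicator
        (fun y => Real.exp (-(t * dist x y ^ 2))) (Y o j)) (Y o i) := by
    intro o
    unfold Qt
    rw [integral_cfg]
    refine Finset.sum_congr rfl fun i _ => ?_
    congr 1
    funext x
    exact integral_cfg _ _ _
  -- almost surely no point is at the pole
  have hpole : ∀ᵐ o ∂P, ∀ i, Z o i ≠ north d := by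
    rw [ae_all_iff]
    intro i
    have h1 : P {o | Z o i ∈ ({north d} : Set (S d))} = 0 := by
      have h2 := sig_singleton hd (north d)
      rw [← hlaw (e i : S d), Measure.map_apply (hZm i) (measurableSet_singleton _)] at h2
      exact h2
    rw [ae_iff]
    simpa using h1
  have hbound : ∀ᵐ o ∂P, Qt t (cfg Λ (Y o)) (cfg Λ (Y o)) ≤
      ∑ i, {o | Y o i ∈ Bx d Λ}.indicator (fun _ => c i) o := by
    filter_upwards [hpole] with o ho
    rw [hQ]
    refine Finset.sum_le_sum fun i _ => ?_
    by_cases hi : Y o i ∈ Bx d Λ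
    · rw [indicator_of_mem hi, indicator_of_mem (show o ∈ {o | Y o i ∈ Bx d Λ} from hi)]
      refine Finset.sum_le_sum fun j _ => ?_
      by_cases hj : Y o j ∈ Bx d Λ
      · rw [indicator_of_mem hj]
        apply Real.exp_le_exp.2
        rw [neg_le_neg_iff]
        have h1 : dist (e i : S d) (e j : S d) ^ 2 ≤ ς ^ 2 * dist (Y o i) (Y o j) ^ 2 := by
          rw [← rot_dist (a o)]
          have hi' : Z o i ∈ Set.range (Th : R d → S d) := by
            rw [range_Th]; exact ho i
          have hj' : Z o j ∈ Set.range (Th : R d → S d) := by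
            rw [range_Th]; exact ho j
          obtain ⟨u, hu⟩ := hi'
          obtain ⟨v, hv⟩ := hj'
          have e1 : rot (a o) (e i : S d) = Th u := hu.symm
          have e2 : rot (a o) (e j : S d) = Th v := hv.symm
          have e3 : Y o i = (2 / ς) • u := by
            show (2 / ς) • si (Z o i) = _
            rw [← hu, hsi1]
          have e4 : Y o j = (2 / ς) • v := by
            show (2 / ς) • si (Z o j) = _
            rw [← hv, hsi1]
          rw [e1, e2, dist_Th_sq, e3, e4, dist_smul₀, mul_pow, Real.norm_of_nonneg (by positivity)]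
          have l1 := lam_le_two u
          have l2 := lam_le_two v
          have l3 := lam_pos u
          have l4 := lam_pos v
          have e5 : ς ^ 2 * ((2 / ς) ^ 2 * dist u v ^ 2) = 4 * dist u v ^ 2 := by
            field_simp
            ring
          rw [e5]
          have : lam u * lam v ≤ 4 := by nlinarith
          exact mul_le_mul_of_nonneg_right this (by positivity)
        calc t / ς ^ 2 * dist (e i : S d) (e j : S d) ^ 2
            ≤ t / ς ^ 2 * (ς ^ 2 * dist (Y o i) (Y o j) ^ 2) :=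
              mul_le_mul_of_nonneg_left h1 (by positivity)
          _ = t * dist (Y o i) (Y o j) ^ 2 := by field_simp
      · rw [indicator_of_notMem hj]
        exact (Real.exp_pos _).le
    · rw [indicator_of_notMem hi, indicator_of_notMem (show o ∉ {o | Y o i ∈ Bx d Λ} from hi)]
  have hnn : 0 ≤ᵐ[P] fun o => Qt t (cfg Λ (Y o)) (cfg Λ (Y o)) := by
    refine Eventually.of_forall fun o => ?_
    exact integral_nonneg fun x => integral_nonneg fun y => (Real.exp_pos _).le
  have hint : ∀ i, Integrable ({o | Y o i ∈ Bx d Λ}.indicator (fun _ => c i)) P := fun i =>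
    (integrable_const (c i)).indicator ((hYm i) (measurableSet_Bx Λ))
  have h5 := integral_mono_of_nonneg hnn
    (integrable_finsetSum (Finset.univ : Finset (Fin X.card)) fun i _ => hint i) hbound
  refine h5.trans ?_
  rw [integral_finsetSum _ fun i _ => hint i]
  have h6 : ∑ x ∈ X, ∑ y ∈ X, Real.exp (-(t / ς ^ 2 * dist x y ^ 2)) = ∑ i, c i := by
    have g1 : ∀ f : S d → ℝ, ∑ x ∈ X, f x = ∑ i, f (e i) := by
      intro f
      rw [← Finset.sum_coe_sort X f, ← e.sum_comp]
    rw [g1]
    refine Finset.sum_congr rfl fun i _ => ?_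
    rw [g1]
  rw [h6, Finset.mul_sum]
  refine Finset.sum_le_sum fun i _ => ?_
  have hms : MeasurableSet {o | Y o i ∈ Bx d Λ} := (hYm i) (measurableSet_Bx Λ)
  rw [integral_indicator hms, setIntegral_const, smul_eq_mul]
  exact mul_le_mul_of_nonneg_right (hPB i) (hc0 i)

end Helper23.Riesz
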