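import Pool.Agent.Helper69.Riesz.StereoA

/-!
# Riesz energy in the cube: lattice sums and energies of unions of small copies
-/

set_option autoImplicit false
open MeasureTheory Set Filter Topology
open scoped ENNReal NNReal

namespace Helper23.Riesz

/-- the standard lattice -/
noncomputable def stdL (d : ℕ) : Submodule ℤ (Fin d → ℝ) :=
  Submodule.span ℤ (Set.range (Pi.basisFun ℝ (Fin d)))

instance (d : ℕ) : DiscreteTopology (stdL d) := by unfold stdL; infer_instance

instance (d : ℕ) : IsZLattice ℝ (stdL d) := by unfold stdL; infer_instance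

lemma mem_stdL {d : ℕ} (l : Fin d → ℤ) : (fun i => (l i : ℝ) : Fin d → ℝ) ∈ stdL d := by
  have h : (fun i => (l i : ℝ) : Fin d → ℝ) = ∑ i, l i • (Pi.basisFun ℝ (Fin d)) i := by
    ext k
    simp [Finset.sum_apply, Pi.single_apply]
  rw [h]
  exact Submodule.sum_mem _ fun i _ => Submodule.smul_mem _ _ (Submodule.subset_span ⟨i, rfl⟩)

lemma finrank_stdL (d : ℕ) : Module.finrank ℤ (stdL d) = d := by
  have h := ZLattice.rank ℝ (stdL d)
  rw [h, Module.finrank_fin_fun]

/-- lattice sums converge -/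
lemma summable_int_norm {d : ℕ} {s : ℝ} (hs : (d:ℝ) < s) :
    Summable (fun l : Fin d → ℤ => ‖(fun i => (l i : ℝ) : Fin d → ℝ)‖ ^ (-s)) := by
  have hrank := finrank_stdL d
  have hsum := ZLattice.summable_norm_rpow (stdL d) (-s) (by rw [hrank]; linarith)
  have he : Function.Injective (fun l : Fin d → ℤ => (⟨_, mem_stdL l⟩ : stdL d)) := by
    intro l l' h
    have h1 : (fun i => (l i : ℝ) : Fin d → ℝ) = (fun i => (l' i : ℝ) : Fin d → ℝ) :=
      congrArg Subtype.val h
    ext i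
    have h2 : (l i : ℝ) = (l' i : ℝ) := congrFun h1 i
    exact_mod_cast h2
  have h3 := hsum.comp_injective he
  refine h3.congr fun l => ?_
  rfl

/-- sums of inverse powers of the distances in a cubical grid -/
lemma exists_grid_bound {d : ℕ} {s : ℝ} (hs : (d:ℝ) < s) :
    ∃ Sg : ℝ, 0 ≤ Sg ∧ ∀ (m : ℕ) (j : Fin d → Fin m),
      ∑ j' ∈ Finset.univ.erase j, ‖(fun k => (((j' k : ℕ) : ℝ) - ((j k : ℕ) : ℝ)) : Fin d → ℝ)‖ ^ (-s) ≤ Sg := by
  classical
  have hsum := summable_int_norm hs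
  refine ⟨∑' l : Fin d → ℤ, ‖(fun i => (l i : ℝ) : Fin d → ℝ)‖ ^ (-s),
    tsum_nonneg fun l => Real.rpow_nonneg (norm_nonneg _) _, fun m j => ?_⟩
  let f : (Fin d → Fin m) → (Fin d → ℤ) := fun j' k => ((j' k : ℕ) : ℤ) - ((j k : ℕ) : ℤ)
  have hf : Function.Injective f := by
    intro a b h
    ext k
    have h1 := congrFun h k
    simp only [f] at h1
    omega
  have h1 : ∑ j' ∈ Finset.univ.erase j, ‖(fun k => (((j' k : ℕ) : ℝ) - ((j k : ℕ) : ℝ)) : Fin d → ℝ)‖ ^ (-s)
      = ∑ l ∈ (Finset.univ.erase j).image f, ‖(fun i => (l i : ℝ) : Fin d → ℝ)‖ ^ (-s) := by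
    rw [Finset.sum_image (fun a _ b _ h => hf h)]
    refine Finset.sum_congr rfl fun j' _ => ?_
    simp only [f]
    push_cast
    rfl
  rw [h1]
  exact hsum.sum_le_tsum _ fun l _ => Real.rpow_nonneg (norm_nonneg _) _

end Helper23.Riesz
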