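import Pool.Agent.Helper94.Riesz.Defs2
import Pool.Agent.Helper94.Riesz.CubeA

/-!
# Riesz energy in the cube: energies of unions of small copies
-/

set_option autoImplicit false
open MeasureTheory Set Filter Topology
open scoped ENNReal NNReal

namespace Helper23.Riesz

lemma abs_coord_le_dist {d : ℕ} (x y : R d) (k : Fin d) : |x k - y k| ≤ dist x y := by
  rw [dist_eq_norm]
  have h := PiLp.norm_apply_le (x - y) k
  simpa using h

/-- small copy of a point in a subcube -/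
noncomputable def sub {d : ℕ} (m : ℕ) (g : ℝ) (j : Fin d → Fin m) (y : R d) : R d :=
  WithLp.toLp 2 (fun k => (((j k : ℕ) : ℝ) + (1 - g) * y k) / m)

lemma sub_apply {d : ℕ} (m : ℕ) (g : ℝ) (j : Fin d → Fin m) (y : R d) (k : Fin d) :
    sub m g j y k = (((j k : ℕ) : ℝ) + (1 - g) * y k) / m := rfl

lemma dist_sub_same {d : ℕ} {m : ℕ} (hm : 0 < m) {g : ℝ} (hg1 : g < 1) (j : Fin d → Fin m) (x y : R d) :
    dist (sub m g j x) (sub m g j y) = (1 - g) / m * dist x y := by
  have hm0 : (0:ℝ) < m := by exact_mod_cast hm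
  rw [dist_eq_norm, dist_eq_norm]
  have h : sub m g j x - sub m g j y = ((1 - g) / m) • (x - y) := by
    ext k
    simp only [PiLp.sub_apply, sub_apply, PiLp.smul_apply, smul_eq_mul]
    field_simp
    ring
  rw [h, norm_smul, Real.norm_of_nonneg (by
    have : 0 < 1 - g := by linarith
    positivity)]

lemma sub_mem {d : ℕ} {m : ℕ} (hm : 0 < m) {g : ℝ} (hg0 : 0 ≤ g) (hg1 : g < 1) (j : Fin d → Fin m)
    (y : R d) (hy : y ∈ cube (0 : R d) 1) : sub m g j y ∈ cube (0 : R d) 1 := by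
  intro k
  have hm0 : (0:ℝ) < m := by exact_mod_cast hm
  have h1 := hy k
  simp only [PiLp.zero_apply, zero_add] at h1 ⊢
  rw [sub_apply]
  have h2 : ((j k : ℕ) : ℝ) + 1 ≤ m := by exact_mod_cast (j k).2
  have h3 : (0:ℝ) ≤ ((j k : ℕ) : ℝ) := Nat.cast_nonneg _
  constructor
  · apply div_nonneg _ hm0.le
    nlinarith
  · rw [div_le_one hm0]
    nlinarith

/-- distance of points in different subcubes -/
lemma dist_sub_diff {d : ℕ} {m : ℕ} (hm : 0 < m) {g : ℝ} (hg0 : 0 < g) (hg1 : g < 1)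
    (j j' : Fin d → Fin m) (_hj : j' ≠ j) (x y : R d)
    (hx : x ∈ cube (0 : R d) 1) (hy : y ∈ cube (0 : R d) 1) :
    g / m * ‖(fun k => (((j' k : ℕ) : ℝ) - ((j k : ℕ) : ℝ)) : Fin d → ℝ)‖ ≤ dist (sub m g j x) (sub m g j' y) := by
  have hm0 : (0:ℝ) < m := by exact_mod_cast hm
  have hgm : 0 ≤ g / m := by positivity
  have hkey : ∀ k, g / m * |((j' k : ℕ) : ℝ) - ((j k : ℕ) : ℝ)| ≤ dist (sub m g j x) (sub m g j' y) := by
    intro k
    refine le_trans ?_ (abs_coord_le_dist _ _ k)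
    rw [sub_apply, sub_apply]
    have h1 := hx k
    have h2 := hy k
    simp only [PiLp.zero_apply, zero_add] at h1 h2
    have h3 : (((j k : ℕ) : ℝ) + (1 - g) * x k) / m - (((j' k : ℕ) : ℝ) + (1 - g) * y k) / m
        = ((((j k : ℕ) : ℝ) - ((j' k : ℕ) : ℝ)) + (1 - g) * (x k - y k)) / m := by ring
    rw [h3, abs_div, abs_of_pos hm0, div_mul_eq_mul_div, div_le_div_iff_of_pos_right hm0]
    rcases lt_trichotomy (j k) (j' k) with h | h | h
    · have h4 : ((j k : ℕ) : ℝ) + 1 ≤ ((j' k : ℕ) : ℝ) := by exact_mod_cast h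
      rw [abs_of_nonneg (by linarith)]
      refine le_trans ?_ (neg_le_abs _)
      nlinarith
    · rw [h]
      simp only [sub_self, abs_zero, mul_zero]
      exact abs_nonneg _
    · have h4 : ((j' k : ℕ) : ℝ) + 1 ≤ ((j k : ℕ) : ℝ) := by exact_mod_cast h
      rw [abs_of_nonpos (by linarith)]
      refine le_trans ?_ (le_abs_self _)
      nlinarith
  have hnz : 0 < g / m := by positivity
  have h5 : ‖(fun k => (((j' k : ℕ) : ℝ) - ((j k : ℕ) : ℝ)) : Fin d → ℝ)‖ ≤
      dist (sub m g j x) (sub m g j' y) / (g / m) := by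
    rw [pi_norm_le_iff_of_nonneg (by positivity)]
    intro k
    rw [le_div_iff₀ hnz, Real.norm_eq_abs, mul_comm]
    exact hkey k
  rw [le_div_iff₀ hnz] at h5
  linarith

/-- energy of the union of small copies -/
lemma Ecube_subdiv {d : ℕ} (hd : 1 ≤ d) {s : ℝ} (hs : (d:ℝ) < s) {g : ℝ} (hg0 : 0 < g) (hg1 : g < 1) :
    ∃ Cg : ℝ, 0 ≤ Cg ∧ ∀ m n : ℕ, 0 < m →
      Ecube s d (m ^ d * n) ≤ (m : ℝ) ^ ((d:ℝ) + s) * ((1 - g) ^ (-s) * Ecube s d n + Cg * (n : ℝ) ^ 2) := by
  classical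
  obtain ⟨Sg, hSg0, hSg⟩ := exists_grid_bound hs
  have hs0 : 0 < s := lt_of_le_of_lt (Nat.cast_nonneg d) hs
  refine ⟨g ^ (-s) * Sg, by positivity, fun m n hm => ?_⟩
  have hm0 : (0:ℝ) < m := by exact_mod_cast hm
  -- enough for all almost optimal configurations
  have hmain : ∀ Y : Finset (R d), Y.card = n → (∀ x ∈ Y, x ∈ cube (0 : R d) 1) →
      Ecube s d (m ^ d * n) ≤ (m : ℝ) ^ ((d:ℝ) + s) * ((1 - g) ^ (-s) * enR s Y + g ^ (-s) * Sg * (n : ℝ) ^ 2) := by
    intro Y hYn hY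
    let Φ : (Fin d → Fin m) × R d → R d := fun p => sub m g p.1 p.2
    have hg' : 0 < (1 - g) / m := by
      have : 0 < 1 - g := by linarith
      positivity
    have hinj : Set.InjOn Φ ((Finset.univ ×ˢ Y : Finset ((Fin d → Fin m) × R d)) : Set _) := by
      rintro ⟨j, x⟩ hx ⟨j', y⟩ hy h
      simp only [Finset.coe_product, Finset.coe_univ, Set.mem_prod, Set.mem_univ, true_and, Finset.mem_coe] at hx hy
      have h0 : dist (sub m g j x) (sub m g j' y) = 0 := by
        have h' : sub m g j x = sub m g j' y := h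
        rw [h', dist_self]
      by_cases hj : j' = j
      · subst hj
        rw [dist_sub_same hm hg1] at h0
        have h1 : dist x y = 0 := by
          rcases mul_eq_zero.1 h0 with h2 | h2
          · exact absurd h2 hg'.ne'
          · exact h2
        rw [dist_eq_zero.1 h1]
      · exfalso
        have h1 := dist_sub_diff hm hg0 hg1 j j' hj x y (hY x hx) (hY y hy)
        rw [h0] at h1
        have h2 : (0:ℝ) < g / m := by positivity
        have h3 : ‖(fun k => (((j' k : ℕ) : ℝ) - ((j k : ℕ) : ℝ)) : Fin d → ℝ)‖ ≤ 0 := by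
          by_contra hc
          push Not at hc
          have := mul_pos h2 hc
          linarith
        have h4 := norm_le_zero_iff.1 h3
        apply hj
        ext k
        have h5 := congrFun h4 k
        simp only [Pi.zero_apply, sub_eq_zero, Nat.cast_inj] at h5
        exact h5
    let Z : Finset (R d) := (Finset.univ ×ˢ Y).image Φ
    have hZc : Z.card = m ^ d * n := by
      rw [Finset.card_image_of_injOn hinj, Finset.card_product, hYn]
      simp
    have hZm : ∀ x ∈ Z, x ∈ cube (0 : R d) 1 := by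
      intro z hz
      obtain ⟨⟨j, y⟩, hp, rfl⟩ := Finset.mem_image.1 hz
      exact sub_mem hm hg0.le hg1 j y (hY y (Finset.mem_product.1 hp).2)
    have hE := Ecube_le s Z hZm
    rw [hZc] at hE
    refine hE.trans ?_
    have hinj' : ∀ p ∈ (Finset.univ ×ˢ Y : Finset ((Fin d → Fin m) × R d)),
        ∀ q ∈ (Finset.univ ×ˢ Y : Finset ((Fin d → Fin m) × R d)), Φ p = Φ q → p = q :=
      fun p hp q hq h => hinj (by exact_mod_cast hp) (by exact_mod_cast hq) h
    -- compute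
    have hsum : enR s Z = ∑ j : Fin d → Fin m, ∑ x ∈ Y, ∑ j' : Fin d → Fin m, ∑ y ∈ Y,
        (dist (sub m g j x) (sub m g j' y)) ^ (-s) := by
      rw [enR_eq hs0.ne', Finset.sum_image hinj', Finset.sum_product]
      refine Finset.sum_congr rfl fun j _ => Finset.sum_congr rfl fun x _ => ?_
      rw [Finset.sum_image hinj', Finset.sum_product]
    have hsame : ∀ j : Fin d → Fin m, ∀ x ∈ Y, ∑ y ∈ Y, (dist (sub m g j x) (sub m g j y)) ^ (-s)
        = (m : ℝ) ^ s * (1 - g) ^ (-s) * ∑ y ∈ Y, (dist x y) ^ (-s) := by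
      intro j x _
      rw [Finset.mul_sum]
      refine Finset.sum_congr rfl fun y _ => ?_
      rw [dist_sub_same hm hg1, Real.mul_rpow hg'.le dist_nonneg, Real.div_rpow (by linarith) hm0.le,
        Real.rpow_neg hm0.le, div_inv_eq_mul]
      ring
    have hdiff : ∀ j : Fin d → Fin m, ∀ x ∈ Y, ∑ j' ∈ Finset.univ.erase j, ∑ y ∈ Y,
        (dist (sub m g j x) (sub m g j' y)) ^ (-s) ≤ (m : ℝ) ^ s * (g ^ (-s) * Sg) * n := by
      intro j x hx
      have h1 : ∀ j' ∈ Finset.univ.erase j, ∑ y ∈ Y, (dist (sub m g j x) (sub m g j' y)) ^ (-s) ≤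
          ((m : ℝ) ^ s * g ^ (-s) * n) * ‖(fun k => (((j' k : ℕ) : ℝ) - ((j k : ℕ) : ℝ)) : Fin d → ℝ)‖ ^ (-s) := by
        intro j' hj'
        have hj'' := Finset.ne_of_mem_erase hj'
        have h2 : ∀ y ∈ Y, (dist (sub m g j x) (sub m g j' y)) ^ (-s) ≤
            (m : ℝ) ^ s * g ^ (-s) * ‖(fun k => (((j' k : ℕ) : ℝ) - ((j k : ℕ) : ℝ)) : Fin d → ℝ)‖ ^ (-s) := by
          intro y hy
          have h3 := dist_sub_diff hm hg0 hg1 j j' hj'' x y (hY x hx) (hY y hy)
          have hpos : 0 < ‖(fun k => (((j' k : ℕ) : ℝ) - ((j k : ℕ) : ℝ)) : Fin d → ℝ)‖ := by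
            rw [norm_pos_iff]
            intro h4
            apply hj''
            ext k
            have h5 := congrFun h4 k
            simp only [Pi.zero_apply, sub_eq_zero, Nat.cast_inj] at h5
            exact h5
          have h4 : (g / m * ‖(fun k => (((j' k : ℕ) : ℝ) - ((j k : ℕ) : ℝ)) : Fin d → ℝ)‖) ^ (-s)
              = (m : ℝ) ^ s * g ^ (-s) * ‖(fun k => (((j' k : ℕ) : ℝ) - ((j k : ℕ) : ℝ)) : Fin d → ℝ)‖ ^ (-s) := by
            rw [Real.mul_rpow (by positivity) hpos.le, Real.div_rpow hg0.le hm0.le,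
              Real.rpow_neg hm0.le, div_inv_eq_mul]
            ring
          rw [← h4]
          exact Real.rpow_le_rpow_of_nonpos (by positivity) h3 (by linarith)
        refine (Finset.sum_le_sum h2).trans (le_of_eq ?_)
        rw [Finset.sum_const, nsmul_eq_mul, hYn]
        ring
      refine (Finset.sum_le_sum h1).trans ?_
      rw [← Finset.mul_sum]
      have h5 : (m : ℝ) ^ s * g ^ (-s) * n * ∑ j' ∈ Finset.univ.erase j,
          ‖(fun k => (((j' k : ℕ) : ℝ) - ((j k : ℕ) : ℝ)) : Fin d → ℝ)‖ ^ (-s) ≤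
          (m : ℝ) ^ s * g ^ (-s) * n * Sg :=
        mul_le_mul_of_nonneg_left (hSg m j) (by positivity)
      refine h5.trans (le_of_eq ?_)
      ring
    have hfinal : enR s Z ≤ ∑ j : Fin d → Fin m, ∑ x ∈ Y,
        ((m : ℝ) ^ s * (1 - g) ^ (-s) * ∑ y ∈ Y, (dist x y) ^ (-s) + (m : ℝ) ^ s * (g ^ (-s) * Sg) * n) := by
      rw [hsum]
      refine Finset.sum_le_sum fun j _ => Finset.sum_le_sum fun x hx => ?_
      rw [← Finset.sum_erase_add _ _ (Finset.mem_univ j), hsame j x hx]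
      have := hdiff j x hx
      linarith
    refine hfinal.trans (le_of_eq ?_)
    simp only [Finset.sum_add_distrib, Finset.sum_const, ← Finset.mul_sum, ← enR_eq hs0.ne', Finset.card_univ,
      Fintype.card_pi, Fintype.card_fin, Finset.prod_const, nsmul_eq_mul, hYn]
    have h6 : (m:ℝ) ^ ((d:ℝ) + s) = (m:ℝ) ^ d * (m:ℝ) ^ s := by
      rw [Real.rpow_add hm0, Real.rpow_natCast]
    rw [h6]
    push_cast
    ring
  refine le_of_forall_pos_lt_add fun ε hε => ?_
  have hA : 0 < (m : ℝ) ^ ((d:ℝ) + s) * (1 - g) ^ (-s) := by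
    have : 0 < 1 - g := by linarith
    positivity
  obtain ⟨Y, h1, h2, h3⟩ := exists_lt_Ecube hd s n (ε / ((m : ℝ) ^ ((d:ℝ) + s) * (1 - g) ^ (-s))) (by positivity)
  refine lt_of_le_of_lt (hmain Y h1 h2) ?_
  have h4 : (m : ℝ) ^ ((d:ℝ) + s) * (1 - g) ^ (-s) * enR s Y < (m : ℝ) ^ ((d:ℝ) + s) * (1 - g) ^ (-s) * (Ecube s d n + ε / ((m : ℝ) ^ ((d:ℝ) + s) * (1 - g) ^ (-s))) :=
    mul_lt_mul_of_pos_left h3 hA
  rw [mul_add, mul_div_cancel₀ _ hA.ne'] at h4
  linarith

end Helper23.Riesz
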