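import Pool.Agent.Helper23.Riesz.Defs
import Pool.Agent.Helper69.Riesz.StereoC
import Pool.Agent.Helper34.Riesz.Defs2

/-!
# Riesz energy, stage 2: basic lemmas on the energy in the cube
-/

set_option autoImplicit false
open MeasureTheory Set Filter Topology
open scoped ENNReal NNReal

namespace Helper23.Riesz

lemma enR_nonneg (s : ℝ) {d : ℕ} (Y : Finset (R d)) : 0 ≤ enR s Y := by
  unfold enR
  exact Finset.sum_nonneg fun x _ => Finset.sum_nonneg fun y _ => Real.rpow_nonneg dist_nonneg _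

lemma enR_eq {s : ℝ} (hs : s ≠ 0) {d : ℕ} (Y : Finset (R d)) :
    enR s Y = ∑ x ∈ Y, ∑ y ∈ Y, (dist x y) ^ (-s) := by
  classical
  unfold enR
  refine Finset.sum_congr rfl fun x hx => ?_
  have h0 : (dist x x) ^ (-s) = 0 := by rw [dist_self, Real.zero_rpow (by simpa using hs)]
  rw [← Finset.sum_erase_add _ _ hx, h0, add_zero]

lemma enR_mono {s : ℝ} (hs : s ≠ 0) {d : ℕ} {X Y : Finset (R d)} (h : X ⊆ Y) : enR s X ≤ enR s Y := by
  rw [enR_eq hs, enR_eq hs]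
  calc ∑ x ∈ X, ∑ y ∈ X, (dist x y) ^ (-s) ≤ ∑ x ∈ X, ∑ y ∈ Y, (dist x y) ^ (-s) :=
        Finset.sum_le_sum fun x _ => Finset.sum_le_sum_of_subset_of_nonneg h
          fun y _ _ => Real.rpow_nonneg dist_nonneg _
    _ ≤ ∑ x ∈ Y, ∑ y ∈ Y, (dist x y) ^ (-s) :=
        Finset.sum_le_sum_of_subset_of_nonneg h
          fun x _ _ => Finset.sum_nonneg fun y _ => Real.rpow_nonneg dist_nonneg _

lemma Ecube_bddBelow (s : ℝ) (d N : ℕ) : BddBelow {e : ℝ | ∃ Y : Finset (R d), Y.card = N ∧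
    (∀ x ∈ Y, x ∈ cube (0 : R d) 1) ∧ e = enR s Y} :=
  ⟨0, by rintro e ⟨Y, -, -, rfl⟩; exact enR_nonneg s Y⟩

lemma Ecube_le (s : ℝ) {d : ℕ} (Y : Finset (R d)) (hY : ∀ x ∈ Y, x ∈ cube (0 : R d) 1) :
    Ecube s d Y.card ≤ enR s Y :=
  csInf_le (Ecube_bddBelow s d Y.card) ⟨Y, rfl, hY, rfl⟩

lemma cube_infinite {d : ℕ} (hd : 1 ≤ d) : (cube (0 : R d) 1).Infinite := by
  let f : ℝ → R d := fun t => WithLp.toLp 2 (fun _ => t)
  have hf : Set.InjOn f (Icc (0:ℝ) 1) := by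
    intro a _ b _ h
    have h1 := congrArg (fun z : R d => z ⟨0, by omega⟩) h
    simpa [f] using h1
  have hI : (f '' Icc (0:ℝ) 1).Infinite := (Set.Icc_infinite zero_lt_one).image hf
  refine hI.mono ?_
  rintro _ ⟨t, ht, rfl⟩ k
  simp only [f, PiLp.zero_apply, zero_add]
  exact ht

lemma Ecube_nonempty {d : ℕ} (hd : 1 ≤ d) (s : ℝ) (N : ℕ) : {e : ℝ | ∃ Y : Finset (R d), Y.card = N ∧
    (∀ x ∈ Y, x ∈ cube (0 : R d) 1) ∧ e = enR s Y}.Nonempty := by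
  obtain ⟨Y, hY, hc⟩ := (cube_infinite hd).exists_subset_card_eq N
  exact ⟨enR s Y, Y, hc, fun x hx => hY hx, rfl⟩

lemma Ecube_nonneg (s : ℝ) (d N : ℕ) : 0 ≤ Ecube s d N :=
  Real.sInf_nonneg (by rintro e ⟨Y, -, -, rfl⟩; exact enR_nonneg s Y)

/-- almost optimal configurations -/
lemma exists_lt_Ecube {d : ℕ} (hd : 1 ≤ d) (s : ℝ) (N : ℕ) (ε : ℝ) (hε : 0 < ε) :
    ∃ Y : Finset (R d), Y.card = N ∧ (∀ x ∈ Y, x ∈ cube (0 : R d) 1) ∧ enR s Y < Ecube s d N + ε := by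
  obtain ⟨e, ⟨Y, h1, h2, rfl⟩, h3⟩ := Real.lt_sInf_add_pos (Ecube_nonempty hd s N) hε
  exact ⟨Y, h1, h2, h3⟩

lemma Ecube_mono {d : ℕ} (hd : 1 ≤ d) {s : ℝ} (hs : s ≠ 0) {M N : ℕ} (h : M ≤ N) :
    Ecube s d M ≤ Ecube s d N := by
  refine le_of_forall_pos_lt_add fun ε hε => ?_
  obtain ⟨Y, h1, h2, h3⟩ := exists_lt_Ecube hd s N ε hε
  obtain ⟨X, hX, hc⟩ := Finset.exists_subset_card_eq (n := M) (by rw [h1]; exact h)
  have h4 := Ecube_le s X fun x hx => h2 x (hX hx)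
  rw [hc] at h4
  exact lt_of_le_of_lt (h4.trans (enR_mono hs hX)) h3

end Helper23.Riesz
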