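import Pool.Agent.Helper23.Riesz.Defs

/-!
# Riesz energy: adding and removing points
-/

set_option autoImplicit false
open MeasureTheory Set Filter Topology
open scoped ENNReal NNReal

namespace Helper23.Riesz

/-- energy after adding a point -/
lemma en_insert {s : ℝ} (hs : s ≠ 0) {d : ℕ} [DecidableEq (S d)] (Y : Finset (S d)) (z : S d) (hz : z ∉ Y) :
    en s (insert z Y) = en s Y + 2 * ∑ y ∈ Y, K s z y := by
  rw [en_eq hs, en_eq hs, Finset.sum_insert hz, Finset.sum_insert hz, K_self hs]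
  have h1 : ∀ x ∈ Y, ∑ y ∈ insert z Y, K s x y = K s z x + ∑ y ∈ Y, K s x y := by
    intro x _
    rw [Finset.sum_insert hz, K_symm s x z]
  rw [Finset.sum_congr rfl h1, Finset.sum_add_distrib]
  ring

/-- energy after removing a point -/
lemma en_erase {s : ℝ} (hs : s ≠ 0) {d : ℕ} [DecidableEq (S d)] (Y : Finset (S d)) (z : S d) (hz : z ∈ Y) :
    en s (Y.erase z) = en s Y - 2 * ∑ y ∈ Y, K s z y := by
  have h := en_insert hs (Y.erase z) z (Finset.notMem_erase z Y)
  rw [Finset.insert_erase hz] at h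
  have h2 : ∑ y ∈ Y.erase z, K s z y = ∑ y ∈ Y, K s z y := by
    rw [← Finset.sum_erase_add _ _ hz, K_self hs, add_zero]
  rw [h2] at h
  linarith

/-- adding one point: an averaging argument -/
lemma exists_add {d : ℕ} {s v : ℝ} (hs : 0 < s) [IsProbabilityMeasure (sig d)]
    (hint : ∀ x : S d, Integrable (fun y => K s x y) (sig d))
    (hv : ∀ x : S d, ∫ y, K s x y ∂(sig d) = v)
    (hsing : ∀ x : S d, sig d {x} = 0) (Y : Finset (S d)) :
    ∃ Z : Finset (S d), Z.card = Y.card + 1 ∧ en s Z ≤ en s Y + 2 * Y.card * v := by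
  classical
  have hnull : sig d (↑Y : Set (S d)) = 0 := by
    have h := (measure_biUnion_null_iff (μ := sig d) (s := fun x : S d => {x}) (Y.finite_toSet.countable)).2
      (fun x _ => hsing x)
    rwa [biUnion_of_singleton] at h
  have hI : Integrable (fun z => ∑ y ∈ Y, K s z y) (sig d) := by
    refine integrable_finsetSum _ fun y _ => ?_
    have := hint y
    refine this.congr (Eventually.of_forall fun z => ?_)
    exact K_symm s y z
  obtain ⟨z, hz, hle⟩ := exists_notMem_null_le_integral hI hnull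
  have hsum : ∫ z, ∑ y ∈ Y, K s z y ∂(sig d) = Y.card * v := by
    rw [integral_finsetSum]
    · have : ∀ y ∈ Y, ∫ z, K s z y ∂(sig d) = v := by
        intro y _
        rw [← hv y]
        refine integral_congr_ae (Eventually.of_forall fun z => ?_)
        exact K_symm s z y
      rw [Finset.sum_congr rfl this, Finset.sum_const, nsmul_eq_mul]
    · intro y _
      refine (hint y).congr (Eventually.of_forall fun z => ?_)
      exact K_symm s y z
  have hz' : z ∉ Y := fun h => hz (by exact_mod_cast h)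
  refine ⟨insert z Y, Finset.card_insert_of_notMem hz', ?_⟩
  rw [en_insert hs.ne' Y z hz']
  rw [hsum] at hle
  nlinarith [hle]

/-- adding points -/
lemma exists_add_many {d : ℕ} {s v : ℝ} (hs : 0 < s) [IsProbabilityMeasure (sig d)]
    (hint : ∀ x : S d, Integrable (fun y => K s x y) (sig d))
    (hv : ∀ x : S d, ∫ y, K s x y ∂(sig d) = v)
    (hsing : ∀ x : S d, sig d {x} = 0) (Y : Finset (S d)) (k : ℕ) :
    ∃ Z : Finset (S d), Z.card = Y.card + k ∧
      en s Z ≤ en s Y + v * (((Y.card : ℝ) + k) * ((Y.card : ℝ) + k - 1) - (Y.card : ℝ) * ((Y.card : ℝ) - 1)) := by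
  induction k with
  | zero => exact ⟨Y, by simp, by simp⟩
  | succ k ih =>
    obtain ⟨Z, hZ, hZe⟩ := ih
    obtain ⟨W, hW, hWe⟩ := exists_add hs hint hv hsing Z
    refine ⟨W, by rw [hW, hZ]; ring, ?_⟩
    have hc : (Z.card : ℝ) = Y.card + k := by rw [hZ]; push_cast; ring
    rw [hc] at hWe
    push_cast
    nlinarith [hWe, hZe]

/-- removing one point -/
lemma exists_remove {d : ℕ} {s : ℝ} (hs : 0 < s) (Y : Finset (S d)) (hY : Y.Nonempty) :
    ∃ Z : Finset (S d), Z.card + 1 = Y.card ∧ (Y.card : ℝ) * en s Z ≤ ((Y.card : ℝ) - 2) * en s Y := by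
  classical
  have hsum : ∑ z ∈ Y, en s (Y.erase z) = ((Y.card : ℝ) - 2) * en s Y := by
    rw [Finset.sum_congr rfl fun z hz => en_erase hs.ne' Y z hz, Finset.sum_sub_distrib,
      Finset.sum_const, nsmul_eq_mul, ← Finset.mul_sum, ← en_eq hs.ne']
    ring
  obtain ⟨z, hz, hle⟩ := Finset.exists_le_of_sum_le (s := Y) (f := fun z => en s (Y.erase z))
    (g := fun _ => ((Y.card : ℝ) - 2) / Y.card * en s Y) hY (by
      rw [hsum, Finset.sum_const, nsmul_eq_mul]
      have hc : (Y.card : ℝ) ≠ 0 := by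
        have := Finset.card_pos.2 hY
        positivity
      apply le_of_eq
      field_simp)
  have hcpos : (0:ℝ) < Y.card := by
    have := Finset.card_pos.2 hY
    positivity
  refine ⟨Y.erase z, Finset.card_erase_add_one hz, ?_⟩
  have h1 : (Y.card : ℝ) * en s (Y.erase z) ≤ Y.card * (((Y.card : ℝ) - 2) / Y.card * en s Y) :=
    mul_le_mul_of_nonneg_left hle hcpos.le
  have h2 : (Y.card : ℝ) * (((Y.card : ℝ) - 2) / Y.card * en s Y) = ((Y.card : ℝ) - 2) * en s Y := by
    field_simp
  linarith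

/-- removing points -/
lemma exists_remove_many {d : ℕ} {s : ℝ} (hs : 0 < s) (Y : Finset (S d)) (k : ℕ) (hk : k + 1 ≤ Y.card) :
    ∃ Z : Finset (S d), Z.card + k = Y.card ∧
      (Y.card : ℝ) * ((Y.card : ℝ) - 1) * en s Z ≤
        ((Y.card : ℝ) - k) * ((Y.card : ℝ) - k - 1) * en s Y := by
  induction k with
  | zero => exact ⟨Y, by simp, by simp⟩
  | succ k ih =>
    obtain ⟨Z, hZ, hZe⟩ := ih (by omega)
    have hZne : Z.Nonempty := by
      rw [← Finset.card_pos]; omega
    obtain ⟨W, hW, hWe⟩ := exists_remove hs Z hZne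
    refine ⟨W, by omega, ?_⟩
    have hc : (Z.card : ℝ) = Y.card - k := by
      have : (Z.card : ℝ) + k = Y.card := by exact_mod_cast hZ
      linarith
    rw [hc] at hWe
    set m : ℝ := (Y.card : ℝ) with hm
    have hkm : (k : ℝ) + 2 ≤ m := by
      rw [hm]; exact_mod_cast hk
    set t : ℝ := m - k with ht
    have ht2 : 2 ≤ t := by rw [ht]; linarith
    have hk0 : (0:ℝ) ≤ k := Nat.cast_nonneg k
    have hmm : 0 ≤ m * (m - 1) := by nlinarith
    -- t * (m (m-1) en W) ≤ (t-2) * (m (m-1) en Z) ≤ (t-2) t (t-1) en Y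
    have h1 : m * (m - 1) * (t * en s W) ≤ m * (m - 1) * ((t - 2) * en s Z) :=
      mul_le_mul_of_nonneg_left hWe hmm
    have h2 : (t - 2) * (m * (m - 1) * en s Z) ≤ (t - 2) * (t * (t - 1) * en s Y) :=
      mul_le_mul_of_nonneg_left hZe (by linarith)
    have h3 : t * (m * (m - 1) * en s W) ≤ t * ((t - 1) * (t - 2) * en s Y) := by
      calc t * (m * (m - 1) * en s W) = m * (m - 1) * (t * en s W) := by ring
        _ ≤ m * (m - 1) * ((t - 2) * en s Z) := h1
        _ = (t - 2) * (m * (m - 1) * en s Z) := by ring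
        _ ≤ (t - 2) * (t * (t - 1) * en s Y) := h2
        _ = t * ((t - 1) * (t - 2) * en s Y) := by ring
    have h4 : m * (m - 1) * en s W ≤ (t - 1) * (t - 2) * en s Y :=
      le_of_mul_le_mul_left h3 (by linarith)
    have h5 : (m - ((k + 1 : ℕ) : ℝ)) * (m - ((k + 1 : ℕ) : ℝ) - 1) * en s Y = (t - 1) * (t - 2) * en s Y := by
      rw [ht]; push_cast; ring
    rw [h5]
    exact h4

end Helper23.Riesz
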